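import Mathlib

set_option autoImplicit false

namespace Pool.Agent.H.MP_f458de_lc

open Finset

noncomputable section

variable {m : ℕ}

def ld (σ : ℕ → ℝ × ℝ) (d : ℕ → Option (Fin m)) (n : ℕ) (k : Fin m) : ℝ :=
  ∑ i ∈ range n, if d i = some k then (σ i).1 else 0

def pen (σ : ℕ → ℝ × ℝ) (d : ℕ → Option (Fin m)) (n : ℕ) : ℝ :=
  ∑ i ∈ range n, if d i = none then (σ i).2 else 0

def cost (σ : ℕ → ℝ × ℝ) (d : ℕ → Option (Fin m)) (n : ℕ) : ℝ := (⨆ k, ld σ d n k) + pen σ d n

open Classical in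
def W (σ : ℕ → ℝ × ℝ) (d : ℕ → Option (Fin m)) (n : ℕ) (τ : ℝ) : ℝ :=
  ∑ i ∈ range n, if d i = none ∧ (σ i).1 / m < (σ i).2 ∧ (σ i).1 ≤ τ then (σ i).2 else 0

open Classical in
def V (σ : ℕ → ℝ × ℝ) (n : ℕ) (τ : ℝ) : ℝ := ∑ i ∈ range n, if τ < (σ i).1 then (σ i).2 else 0

def tot (σ : ℕ → ℝ × ℝ) (d : ℕ → Option (Fin m)) (n : ℕ) : ℝ :=
  ∑ i ∈ range n, if d i = none then 0 else (σ i).1

theorem sum_ld (σ : ℕ → ℝ × ℝ) (d : ℕ → Option (Fin m)) (n : ℕ) :
    ∑ k, ld σ d n k = tot σ d n := by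
  unfold ld tot
  rw [sum_comm]
  refine sum_congr rfl fun i _ => ?_
  rcases d i with _ | k <;> simp

abbrev St (m : ℕ) := (ℝ → ℝ) × (Fin m → ℝ)

open Classical in
def out [NeZero m] (α : ℝ) (s : St m) (x : ℝ × ℝ) : Option (Fin m) :=
  if x.2 ≤ x.1 / m ∨ ∀ τ, x.1 ≤ τ → s.1 τ + x.2 ≤ α * τ then none
  else some (Finite.exists_min s.2).choose

open Classical in
def step [NeZero m] (α : ℝ) (s : St m) (x : ℝ × ℝ) : St m :=
  (fun τ => s.1 τ + if out α s x = none ∧ x.1 / m < x.2 ∧ x.1 ≤ τ then x.2 else 0,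
   fun k => s.2 k + if out α s x = some k then x.1 else 0)

def alg [NeZero m] (α : ℝ) (l : List (ℝ × ℝ)) : Option (Fin m) :=
  out α (l.dropLast.foldl (step α) (0, 0)) (l.getLastD 0)

def dec [NeZero m] (α : ℝ) (σ : ℕ → ℝ × ℝ) (i : ℕ) : Option (Fin m) :=
  alg α ((List.range (i + 1)).map σ)

theorem dec_eq' [NeZero m] (α : ℝ) (σ : ℕ → ℝ × ℝ) (i : ℕ) : (dec α σ i : Option (Fin m)) =
    out α (((List.range i).map σ).foldl (step α) (0, 0)) (σ i) := by
  simp [dec, alg, List.range_succ]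

theorem st_eq [NeZero m] (α : ℝ) (σ : ℕ → ℝ × ℝ) (n : ℕ) :
    ((List.range n).map σ).foldl (step α) ((0, 0) : St m) =
      (W σ (dec (m := m) α σ) n, ld σ (dec α σ) n) := by
  induction n with
  | zero => ext <;> simp [W, ld]
  | succ n ih =>
    have := dec_eq' (m := m) α σ n
    rw [List.range_succ, List.map_append, List.foldl_append, List.map_singleton,
      List.foldl_cons, List.foldl_nil, step, ← this, ih]
    ext <;> simp [W, ld, sum_range_succ]

theorem dec_eq [NeZero m] (α : ℝ) (σ : ℕ → ℝ × ℝ) (i : ℕ) : (dec α σ i : Option (Fin m)) =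
    out α (W σ (dec (m := m) α σ) i, ld σ (dec α σ) i) (σ i) := by
  rw [dec_eq', st_eq]

/-- properties of the decisions -/
structure Good (α : ℝ) (σ : ℕ → ℝ × ℝ) (d : ℕ → Option (Fin m)) : Prop where
  r : ∀ i, d i = none → (σ i).1 / m < (σ i).2 → ∀ τ, (σ i).1 ≤ τ → W σ d i τ + (σ i).2 ≤ α * τ
  a : ∀ i k, d i = some k → (σ i).1 / m < (σ i).2 ∧
    (∃ τ, (σ i).1 ≤ τ ∧ α * τ < W σ d i τ + (σ i).2) ∧ ∀ k', ld σ d i k ≤ ld σ d i k'

theorem good [NeZero m] (α : ℝ) (σ : ℕ → ℝ × ℝ) : Good α σ (dec (m := m) α σ) := by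
  constructor
  · intro i h hx
    rw [dec_eq, out] at h
    split_ifs at h with h1
    exact h1.resolve_left (not_le.2 hx)
  · intro i k h
    rw [dec_eq, out] at h
    split_ifs at h with h1
    push Not at h1
    exact ⟨h1.1, h1.2, Option.some.inj h ▸ (Finite.exists_min _).choose_spec⟩

variable {α : ℝ} {σ : ℕ → ℝ × ℝ} {d : ℕ → Option (Fin m)}

theorem Good.inv (g : Good α σ d) (hα : 0 ≤ α) (n : ℕ) {τ : ℝ} (h : 0 ≤ τ) :
    W σ d n τ ≤ α * τ := by
  induction n with
  | zero => simpa [W] using mul_nonneg hα h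
  | succ n ih =>
    rw [W, sum_range_succ]
    split_ifs with h1
    · exact g.r n h1.1 h1.2.1 τ h1.2.2
    · simpa [W] using ih

theorem Good.ls (g : Good α σ d) (hm : 0 < m) {T : ℝ} (T0 : 0 ≤ T) (n : ℕ)
    (hp : ∀ i < n, 0 < (σ i).1 ∧ 0 ≤ (σ i).2) (hT : ∀ i < n, d i ≠ none → (σ i).1 ≤ T) (k : Fin m) :
    ld σ d n k ≤ tot σ d n / m + T := by
  have m0 : (0 : ℝ) < m := by exact_mod_cast hm
  induction n with
  | zero => simpa [ld, tot] using T0
  | succ n ih =>
    have h1 := ih (fun i hi => hp i (by omega)) fun i hi => hT i (by omega)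
    have h2 : tot σ d n / m ≤ tot σ d (n + 1) / m := by
      refine div_le_div_of_nonneg_right ?_ m0.le
      rw [tot, tot, sum_range_succ]
      have := (hp n (by omega)).1
      split_ifs <;> linarith
    rw [ld, sum_range_succ]
    split_ifs with h3
    · have h4 := card_nsmul_le_sum univ _ _ fun k' _ => (g.a n k h3).2.2 k'
      rw [sum_ld, card_univ, Fintype.card_fin, nsmul_eq_mul, mul_comm, ← le_div_iff₀ m0] at h4
      have := hT n (by omega) (by simp [h3])
      unfold ld at h4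
      linarith
    · unfold ld at h1
      linarith

theorem Good.big (g : Good α σ d) {n : ℕ} (hp : ∀ i < n, 0 < (σ i).1 ∧ 0 ≤ (σ i).2) {τ : ℝ}
    {j : ℕ} (hj : j < n) (hd : d j ≠ none) (h : τ < (σ j).1) :
    ∃ τ', (σ j).1 ≤ τ' ∧ α * τ' < W σ d n τ + (V σ n τ - V σ n τ') := by
  obtain ⟨k, hk⟩ := Option.ne_none_iff_exists'.1 hd
  obtain ⟨τ', h1, h2⟩ := (g.a j k hk).2.1
  refine ⟨τ', h1, h2.trans_le ?_⟩
  classical
  have e : W σ d j τ' + (σ j).2 = ∑ i ∈ range (j + 1), if i = j ∨ (d i = none ∧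
      (σ i).1 / m < (σ i).2 ∧ (σ i).1 ≤ τ') then (σ i).2 else 0 := by
    rw [sum_range_succ, if_pos (Or.inl rfl), W]
    congr 1
    refine sum_congr rfl fun i hi => ?_
    simp [(mem_range.1 hi).ne]
  rw [e, W, V, V, ← sum_sub_distrib, ← sum_add_distrib]
  refine (sum_le_sum_of_subset_of_nonneg (range_subset_range.2 hj) fun i hi _ => ?_).trans
    (sum_le_sum fun i hi => ?_)
  · have := (hp i (mem_range.1 hi)).2
    split_ifs <;> linarith
  · have := (hp i (mem_range.1 hi)).2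
    by_cases e : i = j
    · subst e
      simp [hd, h, h1, not_lt.2 h1]
    · by_cases h3 : (σ i).1 ≤ τ
      · have h4 : (σ i).1 ≤ τ' := by linarith
        simp [e, h3, h4, not_lt.2 h3, not_lt.2 h4]
      · by_cases h4 : (σ i).1 ≤ τ'
        · simp only [e, h3, h4, not_le.1 h3, not_lt.2 h4]
          split_ifs <;> simp_all
        · simp [e, h3, h4, not_le.1 h3, not_le.1 h4]

theorem Vn {n : ℕ} (hp : ∀ i < n, 0 < (σ i).1 ∧ 0 ≤ (σ i).2) (τ : ℝ) : 0 ≤ V σ n τ :=
  sum_nonneg fun i hi => by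
    have := (hp i (mem_range.1 hi)).2
    split_ifs <;> linarith

theorem Good.big' (g : Good (1 / 3) σ d) {n : ℕ} (hp : ∀ i < n, 0 < (σ i).1 ∧ 0 ≤ (σ i).2) {τ : ℝ}
    (h : 0 ≤ τ) : ∀ i < n, d i ≠ none → (σ i).1 ≤ τ + 3 * V σ n τ := by
  intro i hi hd
  have := Vn hp τ
  by_contra hc
  obtain ⟨τ', h1, h2⟩ := g.big hp hi hd (show τ < (σ i).1 by linarith)
  have := g.inv (by norm_num) n h
  have := Vn hp τ'
  linarith

theorem ld_le (σ : ℕ → ℝ × ℝ) (d : ℕ → Option (Fin m)) (n : ℕ) (k : Fin m) :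
    ld σ d n k ≤ ⨆ k, ld σ d n k := le_ciSup (Finite.bddAbove_range _) k

theorem ldn {n : ℕ} (hp : ∀ i < n, 0 < (σ i).1 ∧ 0 ≤ (σ i).2) (k : Fin m) : 0 ≤ ld σ d n k :=
  sum_nonneg fun i hi => by
    have := (hp i (mem_range.1 hi)).1
    split_ifs <;> linarith

theorem penn {n : ℕ} (hp : ∀ i < n, 0 < (σ i).1 ∧ 0 ≤ (σ i).2) : 0 ≤ pen σ d n :=
  sum_nonneg fun i hi => by
    have := (hp i (mem_range.1 hi)).2
    split_ifs <;> linarith

theorem job_le {n : ℕ} (hp : ∀ i < n, 0 < (σ i).1 ∧ 0 ≤ (σ i).2) {i : ℕ} (hi : i < n)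
    (hd : d i ≠ none) : (σ i).1 ≤ ⨆ k, ld σ d n k := by
  obtain ⟨k, hk⟩ := Option.ne_none_iff_exists'.1 hd
  refine le_trans ?_ (ld_le σ d n k)
  have := single_le_sum (f := fun i => if d i = some k then (σ i).1 else 0) (fun j hj => by
    have := (hp j (mem_range.1 hj)).1
    split_ifs <;> linarith) (mem_range.2 hi)
  simpa [hk, ld] using this

theorem Good.cost_le (g : Good α σ d) (hm : 0 < m) {T : ℝ} (T0 : 0 ≤ T) {n : ℕ}
    (hp : ∀ i < n, 0 < (σ i).1 ∧ 0 ≤ (σ i).2) (hT : ∀ i < n, d i ≠ none → (σ i).1 ≤ T)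
    (o : ℕ → Option (Fin m)) : cost σ d n ≤ cost σ o n + T + W σ d n (⨆ k, ld σ o n k) := by
  have m0 : (0 : ℝ) < m := by exact_mod_cast hm
  haveI : Nonempty (Fin m) := ⟨⟨0, hm⟩⟩
  have h1 := ciSup_le (g.ls hm T0 n hp hT)
  have h2 := sum_le_card_nsmul univ _ _ fun k _ => ld_le σ o n k
  rw [sum_ld, card_univ, Fintype.card_fin, nsmul_eq_mul, mul_comm, ← div_le_iff₀ m0] at h2
  have h3 : tot σ d n / m + pen σ d n ≤ tot σ o n / m + pen σ o n + W σ d n (⨆ k, ld σ o n k) := by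
    unfold tot pen W
    rw [sum_div, sum_div, ← sum_add_distrib, ← sum_add_distrib, ← sum_add_distrib]
    refine sum_le_sum fun i hi => ?_
    have h4 := hp i (mem_range.1 hi)
    have h5 : 0 ≤ (σ i).1 / m := div_nonneg h4.1.le m0.le
    by_cases hd : d i = none
    · by_cases ho : o i = none
      · simp only [hd, ho, if_true]; split_ifs <;> linarith
      · have := job_le hp (mem_range.1 hi) ho
        by_cases hx : (σ i).1 / m < (σ i).2
        · simp only [hd, ho, hx, this, if_true, if_false, and_self]; simpa using h5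
        · simp only [hd, ho, hx, if_true, if_false, false_and, and_false]; simpa using hx
    · obtain ⟨k, hk⟩ := Option.ne_none_iff_exists'.1 hd
      have := (g.a i k hk).1
      simp only [hd, if_false, false_and]
      split_ifs <;> simp [this.le]
  unfold cost
  linarith

theorem mix (hm : 0 < m) {d' : ℕ → Option (Fin m)} (g : Good (1 / 3) σ d) (g' : Good (2 / 3) σ d')
    {n : ℕ} (hp : ∀ i < n, 0 < (σ i).1 ∧ 0 ≤ (σ i).2) (o : ℕ → Option (Fin m)) :
    cost σ d n + cost σ d' n ≤ 5 * cost σ o n := by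
  set τ := ⨆ k, ld σ o n k with hτ
  have τ0 : 0 ≤ τ := (ldn hp _).trans (ld_le σ o n ⟨0, hm⟩)
  have hV : V σ n τ ≤ pen σ o n := sum_le_sum fun i hi => by
    have := (hp i (mem_range.1 hi)).2
    by_cases ho : o i = none
    · simp only [ho, if_true]; split_ifs <;> linarith
    · simp [ho, not_lt.2 (job_le hp (mem_range.1 hi) ho), hτ]
  have h1 := g.inv (by norm_num) n τ0
  have h2 := g'.inv (by norm_num) n τ0
  have e : cost σ o n = τ + pen σ o n := rfl
  by_cases hc : ∀ i < n, d' i ≠ none → (σ i).1 ≤ τ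
  · have := g'.cost_le hm τ0 hp hc o
    have := g.cost_le hm (by linarith [Vn hp τ]) hp (g.big' hp τ0) o
    linarith
  · push Not at hc
    obtain ⟨i, hi, hd, ht⟩ := hc
    obtain ⟨j, hj, hj'⟩ := exists_max_image ((range n).filter fun i => d' i ≠ none)
      (fun i => (σ i).1) ⟨i, by simp [hi, hd]⟩
    simp only [mem_filter, mem_range] at hj hj'
    obtain ⟨τ', h3, h4⟩ := g'.big hp hj.1 hj.2 (ht.trans_le (hj' i ⟨hi, hd⟩))
    have τ1 : 0 ≤ τ' := (hp j hj.1).1.le.trans h3
    have := g'.cost_le hm τ1 hp (fun l hl hd => (hj' l ⟨hl, hd⟩).trans h3) o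
    have := g.cost_le hm (by linarith [Vn hp τ']) hp (g.big' hp τ1) o
    linarith

theorem inf_le (hm : 0 < m) {n : ℕ} (hp : ∀ i < n, 0 < (σ i).1 ∧ 0 ≤ (σ i).2)
    (o : ℕ → Option (Fin m)) : ⨅ d : ℕ → Option (Fin m), cost σ d n ≤ cost σ o n :=
  ciInf_le ⟨0, by
    rintro _ ⟨d, rfl⟩
    exact add_nonneg ((ldn hp _).trans (ld_le σ d n ⟨0, hm⟩)) (penn hp)⟩ o

theorem one_le (hm : 0 < m) {n : ℕ} (h1 : ∀ i, (σ i).1 = 1) (o : ℕ → Option (Fin m))
    (ho : ∀ i < n, ∀ j < n, ∀ k, o i = some k → o j = some k → i = j) :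
    cost σ o n ≤ 1 + pen σ o n := by
  haveI : Nonempty (Fin m) := ⟨⟨0, hm⟩⟩
  refine add_le_add_left (ciSup_le fun k => ?_) _
  simp only [ld, h1, sum_boole]
  exact_mod_cast card_le_one.2 fun i hi j hj => ho i (mem_range.1 (mem_filter.1 hi).1) j
    (mem_range.1 (mem_filter.1 hj).1) k (mem_filter.1 hi).2 (mem_filter.1 hj).2

theorem two_le {n : ℕ} (h1 : ∀ i, (σ i).1 = 1)
    (h : m < ((range n).filter fun i => d i ≠ none).card) : 2 + pen σ d n ≤ cost σ d n := by
  obtain ⟨y, hy, h2⟩ := exists_lt_card_fiber_of_mul_lt_card_of_maps_to (f := d) (n := 1)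
    (s := (range n).filter fun i => d i ≠ none)
    (t := univ.map ⟨some, Option.some_injective _⟩) (fun i hi => by
      obtain ⟨k, hk⟩ := Option.ne_none_iff_exists'.1 (mem_filter.1 hi).2
      simp [hk]) (by simpa using h)
  obtain ⟨k, -, rfl⟩ := mem_map.1 hy
  refine add_le_add_left (le_trans ?_ (ld_le σ d n k)) _
  simp only [ld, h1, sum_boole]
  exact_mod_cast h2.trans_le (card_le_card fun i hi => by simp_all)

/-- penalties of the adversary -/
def pn (i : ℕ) : ℝ :=
  if i = 0 then 39 / 100 else if i = 1 then 16 / 100 else 1 / (200 * 3 ^ Nat.log 3 (i + 1))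

theorem pn0 (i : ℕ) : 0 ≤ pn i := by unfold pn; split_ifs <;> positivity

theorem pn_eq {s i : ℕ} (h : i ∈ Ico (3 ^ (s + 1) - 1) (3 ^ (s + 2) - 1)) :
    pn i = 1 / (200 * 3 ^ (s + 1)) := by
  obtain ⟨h1, h2⟩ := mem_Ico.1 h
  have : 3 ^ 1 ≤ 3 ^ (s + 1) := Nat.pow_le_pow_right (by norm_num) (by omega)
  rw [pn, if_neg (by omega), if_neg (by omega),
    (Nat.log_eq_iff (Or.inl (Nat.succ_ne_zero s))).2
      ⟨show 3 ^ (s + 1) ≤ i + 1 by omega, show i + 1 < 3 ^ (s + 2) by omega⟩]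

theorem lower (hm : 3 ^ 601 ≤ m) (A : List (ℝ × ℝ) → Option (Fin m))
    (h : ∀ (n : ℕ) (σ : ℕ → ℝ × ℝ), (∀ i < n, 0 < (σ i).1 ∧ 0 ≤ (σ i).2) →
      cost σ (fun i => A ((List.range (i + 1)).map σ)) n ≤
        63 / 25 * ⨅ d : ℕ → Option (Fin m), cost σ d n) : False := by
  have m0 : 0 < m := lt_of_lt_of_le (by positivity) hm
  have h' : ∀ (n : ℕ) (σ : ℕ → ℝ × ℝ), (∀ i < n, 0 < (σ i).1 ∧ 0 ≤ (σ i).2) → ∀ o,
      cost σ (fun i => A ((List.range (i + 1)).map σ)) n ≤ 63 / 25 * cost (m := m) σ o n :=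
    fun n σ hp o => (h n σ hp).trans (by linarith [inf_le m0 hp o])
  haveI : Nonempty (Fin m) := ⟨⟨0, m0⟩⟩
  set σ : ℕ → ℝ × ℝ := fun i => (1, pn i) with hσ
  have hp : ∀ n, ∀ i < n, 0 < (σ i).1 ∧ 0 ≤ (σ i).2 := fun _ i _ => ⟨one_pos, pn0 i⟩
  set d : ℕ → Option (Fin m) := fun i => A ((List.range (i + 1)).map σ) with hd
  have d0 : d 0 = none := by
    by_contra hc
    have h1 := h' 1 σ (hp _) fun _ => none
    have h2 := job_le (hp 1) one_pos hc
    have h3 := penn (d := d) (hp 1)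
    have h4 : cost (m := m) σ (fun _ => none) 1 = 39 / 100 := by
      simp [cost, ld, pen, hσ, pn]
    rw [h4, cost] at h1
    simp only [hσ] at h2
    linarith
  have d1 : d 1 = none := by
    by_contra hc
    have h1 := h' 2 σ (hp _) fun _ => none
    have h2 := job_le (hp 2) one_lt_two hc
    have h3 : pen σ d 2 = 39 / 100 := by simp [pen, sum_range_succ, d0, hc, hσ, pn]
    have h4 : cost (m := m) σ (fun _ => none) 2 = 55 / 100 := by
      simp [cost, ld, pen, sum_range_succ, hσ, pn]; norm_num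
    rw [h4, cost, h3] at h1
    simp only [hσ] at h2
    linarith
  by_cases hc : ∀ s < 600, ((Ico (3 ^ (s + 1) - 1) (3 ^ (s + 2) - 1)).filter
      fun i => d i ≠ none).card < 3 ^ (s + 1)
  · have h1 : ∀ s : ℕ, s ≤ 600 → (s : ℝ) / 200 ≤ pen σ d (3 ^ (s + 1) - 1) := by
      intro s hs
      induction s with
      | zero => simpa using penn (hp _)
      | succ s ih =>
        have h2 := ih (by omega)
        have h3 := hc s (by omega)
        have h4 : 3 ^ (s + 2) = 3 * 3 ^ (s + 1) := by ring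
        have h5 : 0 < 3 ^ (s + 1) := by positivity
        have h6 := card_filter_add_card_filter_not (s := Ico (3 ^ (s + 1) - 1) (3 ^ (s + 2) - 1))
          fun i => d i = none
        rw [Nat.card_Ico] at h6
        have h7 : 3 ^ (s + 1) ≤ ((Ico (3 ^ (s + 1) - 1) (3 ^ (s + 2) - 1)).filter
          fun i => d i = none).card := by simp only [ne_eq] at h3; omega
        have h8 : ∑ i ∈ Ico (3 ^ (s + 1) - 1) (3 ^ (s + 2) - 1), (if d i = none then (σ i).2 else 0)
            = ((Ico (3 ^ (s + 1) - 1) (3 ^ (s + 2) - 1)).filter fun i => d i = none).card *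
              (1 / (200 * 3 ^ (s + 1)) : ℝ) := by
          rw [← sum_filter, sum_congr rfl fun i hi => pn_eq (mem_filter.1 hi).1, sum_const,
            nsmul_eq_mul]
        have h7' : (3 : ℝ) ^ (s + 1) ≤ (((Ico (3 ^ (s + 1) - 1) (3 ^ (s + 2) - 1)).filter
          fun i => d i = none).card : ℕ) := by exact_mod_cast h7
        have h9 : (3 : ℝ) ^ (s + 1) * (1 / (200 * 3 ^ (s + 1))) ≤ _ :=
          mul_le_mul_of_nonneg_right h7' (by positivity)
        rw [← h8, show (3 : ℝ) ^ (s + 1) * (1 / (200 * 3 ^ (s + 1))) = 1 / 200 by field_simp] at h9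
        rw [pen, ← sum_range_add_sum_Ico _ (show 3 ^ (s + 1) - 1 ≤ 3 ^ (s + 1 + 1) - 1 by omega)]
        unfold pen at h2
        push_cast
        linarith
    have h2 := h1 600 le_rfl
    rw [show 600 + 1 = 601 from rfl] at h2
    generalize 3 ^ 601 = N at hm h2
    have h3 := h' (N - 1) σ (hp _) fun i => if h : i < m then some ⟨i, h⟩ else none
    have h4 := one_le (σ := σ) (n := N - 1) m0 (fun _ => rfl)
      (fun i => if h : i < m then some ⟨i, h⟩ else none) fun i hi j hj k h1 h2 => by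
        simp only [show i < m by omega, show j < m by omega, dif_pos, Option.some.injEq] at h1 h2
        simpa using h1.trans h2.symm
    have h5 : pen (m := m) σ (fun i => if h : i < m then some ⟨i, h⟩ else none) (N - 1) = 0 :=
      sum_eq_zero fun i hi => by simp [show i < m by have := mem_range.1 hi; omega]
    have h6 := (ldn (hp (N - 1)) _).trans (ld_le σ d (N - 1) ⟨0, m0⟩)
    unfold cost at h3
    unfold cost at h4
    push_cast at h2
    linarith
  · push Not at hc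
    obtain ⟨s, hs, hc⟩ := hc
    have h4 : 3 ^ (s + 2) = 3 * 3 ^ (s + 1) := by ring
    have h5 : 3 ^ 1 ≤ 3 ^ (s + 1) := Nat.pow_le_pow_right (by norm_num) (by omega)
    have h6 : 3 ^ (s + 1) ≤ m := (Nat.pow_le_pow_right (by norm_num) (by omega)).trans hm
    have h7 : ∑ i ∈ Ico (3 ^ (s + 1) - 1) (3 ^ (s + 2) - 1), pn i = 1 / 100 := by
      rw [sum_congr rfl fun i hi => pn_eq hi, sum_const, Nat.card_Ico,
        show 3 ^ (s + 2) - 1 - (3 ^ (s + 1) - 1) = 2 * 3 ^ (s + 1) by omega, nsmul_eq_mul]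
      push_cast; field_simp; norm_num
    rw [h4] at hc h7
    clear hm
    generalize 3 ^ (s + 1) = a at *
    set σ' : ℕ → ℝ × ℝ := fun i => (1, if i < 3 * a - 1 then pn i else 3) with hσ'
    have hp' : ∀ n, ∀ i < n, 0 < (σ' i).1 ∧ 0 ≤ (σ' i).2 := fun _ i _ =>
      ⟨one_pos, by simp only [hσ']; split_ifs; exacts [pn0 i, by norm_num]⟩
    set d' : ℕ → Option (Fin m) := fun i => A ((List.range (i + 1)).map σ') with hd'
    have e : ∀ i < 3 * a - 1, d' i = d i := fun i hi => by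
      simp only [hd, hd']
      congr 1
      refine List.map_congr_left fun j hj => ?_
      simp [hσ, hσ', show j < 3 * a - 1 by have := List.mem_range.1 hj; omega]
    set o : ℕ → Option (Fin m) := fun i => if h : i < a - 1 then some ⟨i, by omega⟩ else
      if h : 3 * a - 1 ≤ i ∧ i < 2 * a + m then some ⟨i - 2 * a, by omega⟩ else none with ho
    have h1 := h' (2 * a + m) σ' (hp' _) o
    have h2 := one_le (σ := σ') (n := 2 * a + m) m0 (fun _ => rfl) o fun i hi j hj k h1 h2 => by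
      simp only [ho] at h1 h2
      split_ifs at h1 h2 <;> simp only [Option.some.injEq, Fin.ext_iff] at h1 h2 <;> omega
    have h3 : pen σ' o (2 * a + m) = 1 / 100 := by
      rw [← h7, pen, ← sum_filter]
      refine sum_congr ?_ fun i hi => by simp [hσ', (mem_Ico.1 hi).2]
      ext i
      simp only [ho, mem_filter, mem_range, mem_Ico]
      split_ifs <;> simp <;> omega
    have h8 := (ldn (hp' (2 * a + m)) _).trans (ld_le σ' d' (2 * a + m) ⟨0, m0⟩)
    have hf : ∀ i ∈ range (2 * a + m), 0 ≤ if d' i = none then (σ' i).2 else 0 := fun i hi => by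
      have := (hp' _ i (mem_range.1 hi)).2
      split_ifs <;> linarith
    by_cases hr : ∃ i ∈ Ico (3 * a - 1) (2 * a + m), d' i = none
    · obtain ⟨i, hi, hr⟩ := hr
      have := single_le_sum hf (mem_range.2 (mem_Ico.1 hi).2)
      simp only [hr, hσ', if_true, if_neg (not_lt.2 (mem_Ico.1 hi).1)] at this
      have : 3 ≤ pen σ' d' (2 * a + m) := this
      unfold cost at h1
      unfold cost at h2
      linarith
    · push Not at hr
      have h9 := two_le (σ := σ') (d := d') (n := 2 * a + m) (fun _ => rfl) (by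
        have : (Ico (a - 1) (3 * a - 1)).filter (fun i => d i ≠ none) ∪ Ico (3 * a - 1) (2 * a + m)
            ⊆ (range (2 * a + m)).filter fun i => d' i ≠ none := by
          intro i hi
          rcases mem_union.1 hi with hi | hi
          · have := mem_Ico.1 (mem_filter.1 hi).1
            exact mem_filter.2 ⟨mem_range.2 (by omega), e i this.2 ▸ (mem_filter.1 hi).2⟩
          · exact mem_filter.2 ⟨mem_range.2 (mem_Ico.1 hi).2, hr i hi⟩
        have := card_le_card this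
        rw [card_union_of_disjoint (disjoint_left.2 fun i h1 h2 => by
          have := mem_Ico.1 (mem_filter.1 h1).1
          have := mem_Ico.1 h2
          omega), Nat.card_Ico] at this
        omega)
      have h10 := sum_le_sum_of_subset_of_nonneg (range_subset_range.2 (show 2 ≤ 2 * a + m by omega))
        fun i hi _ => hf i hi
      have h11 : ∑ i ∈ range 2, (if d' i = none then (σ' i).2 else 0) = 55 / 100 := by
        simp only [sum_range_succ, e 0 (by omega), e 1 (by omega), d0, d1, hσ',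
          show 0 < 3 * a - 1 by omega, show 1 < 3 * a - 1 by omega]
        norm_num [pn]
      have : 55 / 100 ≤ pen σ' d' (2 * a + m) := h11 ▸ h10
      linarith

end

end Pool.Agent.H.MP_f458de_lc
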